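import Mathlib
import Pool.Agent.Lib.MP_bf4c7f_lp.Final

/-!
# Large prime factors in Oppermann's intervals, for all `x > 1`
-/

set_option autoImplicit false

namespace Pool.Agent.Results.MP_bf4c7f_nt.LargePrimeFactor

/-- For every integer `x > 1` both of Oppermann's intervals `(x² - x, x²)` and `(x², x² + x)`
contain an integer with a prime factor `p > x^(15/13)`; and for every integer `n ≥ 8` the interval
`(n, n + √n)` contains an integer with a prime factor `p > n^(15/26)`. -/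
theorem result :
    (∀ x : ℕ, 1 < x →
      (∃ n p : ℕ, x ^ 2 - x < n ∧ n < x ^ 2 ∧ p.Prime ∧ p ∣ n ∧ x ^ 15 < p ^ 13) ∧
      (∃ n p : ℕ, x ^ 2 < n ∧ n < x ^ 2 + x ∧ p.Prime ∧ p ∣ n ∧ x ^ 15 < p ^ 13)) ∧
    (∀ n : ℕ, 8 ≤ n →
      ∃ m p : ℕ, n < m ∧ (m - n) ^ 2 < n ∧ p.Prime ∧ p ∣ m ∧ n ^ 15 < p ^ 26) :=
  ⟨Pool.Agent.Lib.MP_bf4c7f_lp.oppermann, Pool.Agent.Lib.MP_bf4c7f_lp.sqrt_interval⟩

end Pool.Agent.Results.MP_bf4c7f_nt.LargePrimeFactor
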